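import Pool.Agent.Results.MP_b4aa87_al.IntermediateAutGrowth

set_option autoImplicit false

/-!
# Groups of subexponential growth embed in groups of intermediate automorphic growth

`Gp` is the finitely generated group of subexponential growth of the file
`IntermediateAutGrowth.lean` (generated by the first Grigorchuk group and one transposition).  Every
finitely generated group which contains `Gp` has superpolynomial automorphic growth, with the explicit
lower bound `2 ^ π(M)` at `C M ^ 10`, since its elements have many different orders.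
-/

namespace Pool.Agent.Results.MP_b4aa87_al.AllOvergroups

open Pool.Agent.Results.MP_b4aa87_al.IntermediateAutGrowth

/-- `G` has subexponential growth: for every finite set `S` and every `ε > 0` there is `A > 0` such
that the number of products of at most `n` elements of `S` and inverses is at most `A exp(ε n)`. -/
def SubexpGrowth (G : Type) [Group G] : Prop :=
  ∀ S : Finset G, ∀ ε : ℝ, 0 < ε → ∃ A : ℝ, 0 < A ∧ ∀ n : ℕ,
    ((wordBall G S n).ncard : ℝ) ≤ A * Real.exp (ε * n)

/-- The automorphic growth of `G` is intermediate, with respect to every finite generating set. -/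
def Intermediate (G : Type) [Group G] : Prop :=
  ∀ S : Finset G, Subgroup.closure (S : Set G) = ⊤ →
    (∀ d : ℕ, ¬ Dom (autGrowth G S) (fun n => n ^ d)) ∧
    ¬ Dom (fun n => 2 ^ n) (autGrowth G S)

section
variable {Γ : Type} [Group Γ]

/-- Homomorphisms map balls into balls. -/
theorem ball_hom {G : Type} [Group G] (ι : G →* Γ) (S : Finset G) (T : Finset Γ)
    (hT : Subgroup.closure (T : Set Γ) = ⊤) :
    ∃ C : ℕ, 1 ≤ C ∧ ∀ n, ι '' wordBall G S n ⊆ wordBall Γ T (C * n) := by
  classical
  obtain ⟨C, hC, h⟩ := ball_compare (S.image ι) T hT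
  refine ⟨C, hC, fun n => ?_⟩
  refine subset_trans ?_ (h n)
  rintro _ ⟨g, ⟨l, hl, hx, rfl⟩, rfl⟩
  refine ⟨l.map ι, by rwa [List.length_map], ?_, (map_list_prod ι l).symm⟩
  intro y hy
  obtain ⟨x, hx', rfl⟩ := List.mem_map.1 hy
  rcases hx x hx' with h1 | h1
  · exact Or.inl (Finset.mem_image_of_mem ι h1)
  · right
    rw [← map_inv]
    exact Finset.mem_image_of_mem ι h1

/-- **The lower bound.** -/
theorem lower (ι : Gp →* Γ) (hι : Function.Injective ι) (S : Finset Γ)
    (hS : Subgroup.closure (S : Set Γ) = ⊤) :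
    ∃ C : ℕ, 1 ≤ C ∧ ∀ M : ℕ, 1 ≤ M →
      2 ^ Nat.primeCounting M ≤ autGrowth Γ S (C * M ^ 10) := by
  obtain ⟨C, hC, hsub⟩ := ball_hom ι S0 S hS
  refine ⟨C * 12288, by omega, fun M hM => ?_⟩
  refine (many_orders M hM).trans ?_
  have h1 : C * 12288 * M ^ 10 = C * (12288 * M ^ 10) := by ring
  rw [h1]
  refine le_trans ?_ (orders_le_growth S _)
  apply Set.ncard_le_ncard
  · rintro _ ⟨g, hg, rfl⟩
    exact ⟨ι g, hsub _ ⟨g, hg, rfl⟩, orderOf_injective ι hι g⟩
  · exact (ball_finite _ _).image _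

theorem not_poly' (ι : Gp →* Γ) (hι : Function.Injective ι) (S : Finset Γ)
    (hS : Subgroup.closure (S : Set Γ) = ⊤) (d : ℕ) :
    ¬ Dom (autGrowth Γ S) (fun n => n ^ d) := by
  rintro ⟨c, hc, h⟩
  obtain ⟨C, hC, hlow⟩ := lower ι hι S hS
  obtain ⟨M, hM, hlarge⟩ := prime_count_large (c * (c * C + c) ^ d) c (10 * d)
  have h1 := h (C * M ^ 10)
  have h2 := hlow M hM
  have h3 : c * (C * M ^ 10) + c ≤ (c * C + c) * M ^ 10 := by
    have : 1 ≤ M ^ 10 := Nat.one_le_pow _ _ hM
    nlinarith
  have h4 : c * (c * (C * M ^ 10) + c) ^ d + c ≤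
      c * (c * C + c) ^ d * M ^ (10 * d) + c := by
    have h5 : (c * (C * M ^ 10) + c) ^ d ≤ ((c * C + c) * M ^ 10) ^ d :=
      Nat.pow_le_pow_left h3 d
    rw [mul_pow, ← pow_mul] at h5
    calc c * (c * (C * M ^ 10) + c) ^ d + c
        ≤ c * ((c * C + c) ^ d * M ^ (10 * d)) + c :=
          Nat.add_le_add_right (Nat.mul_le_mul_left c h5) c
      _ = _ := by rw [← mul_assoc c ((c * C + c) ^ d)]
  have h7 := (h2.trans h1).trans h4
  omega

theorem not_exp' (hg : SubexpGrowth Γ) (S : Finset Γ) :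
    ¬ Dom (fun n => 2 ^ n) (autGrowth Γ S) := by
  rintro ⟨c, hc, h⟩
  have hc0 : (0 : ℝ) < c := by exact_mod_cast hc
  obtain ⟨A, hA0, hA⟩ := hg S (1 / (2 * c)) (by positivity)
  have h1 : ∀ n : ℕ, (2 : ℝ) ^ n ≤ (c * A * Real.exp 1 + c) * Real.exp (n / 2) := by
    intro n
    have h2 : ((2 ^ n : ℕ) : ℝ) ≤ ((c * autGrowth Γ S (c * n + c) + c : ℕ) : ℝ) := by
      exact_mod_cast h n
    push_cast at h2
    have h3 : (autGrowth Γ S (c * n + c) : ℝ) ≤ ((wordBall Γ S (c * n + c)).ncard : ℝ) := by
      exact_mod_cast growth_le_ball S (c * n + c)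
    have h4 := hA (c * n + c)
    have h5 : Real.exp (1 / (2 * c) * ((c * n + c : ℕ) : ℝ)) ≤
        Real.exp 1 * Real.exp (n / 2) := by
      rw [← Real.exp_add]
      apply Real.exp_le_exp.mpr
      push_cast
      have : 1 / (2 * (c : ℝ)) * (c * n + c) = (n + 1) / 2 := by
        field_simp
      rw [this]
      linarith
    have h6 : (1 : ℝ) ≤ Real.exp (n / 2) := Real.one_le_exp (by positivity)
    have h7 : (autGrowth Γ S (c * n + c) : ℝ) ≤ A * (Real.exp 1 * Real.exp (n / 2)) :=
      h3.trans (h4.trans (mul_le_mul_of_nonneg_left h5 hA0.le))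
    calc (2 : ℝ) ^ n ≤ c * (autGrowth Γ S (c * n + c) : ℝ) + c := h2
      _ ≤ c * (A * (Real.exp 1 * Real.exp (n / 2))) + c * Real.exp (n / 2) := by
        apply add_le_add
        · exact mul_le_mul_of_nonneg_left h7 hc0.le
        · nlinarith
      _ = _ := by ring
  have hB : 0 < c * A * Real.exp 1 + c := by positivity
  have h2 : ∀ n : ℕ, Real.exp (n * (Real.log 2 - 1 / 2)) ≤ c * A * Real.exp 1 + c := by
    intro n
    have h3 := h1 n
    have h4 : (2 : ℝ) ^ n = Real.exp (n * (Real.log 2 - 1 / 2)) * Real.exp (n / 2) := by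
      rw [← Real.exp_add, show (n : ℝ) * (Real.log 2 - 1 / 2) + n / 2 = n * Real.log 2 by ring,
        Real.exp_nat_mul, Real.exp_log (by norm_num)]
    rw [h4] at h3
    exact le_of_mul_le_mul_right h3 (Real.exp_pos _)
  have hl2 : (0.6931471803 : ℝ) < Real.log 2 := Real.log_two_gt_d9
  obtain ⟨n, hn⟩ := exists_nat_gt ((c * A * Real.exp 1 + c) / 0.19)
  have h3 := h2 n
  have h4 := Real.add_one_le_exp ((n : ℝ) * (Real.log 2 - 1 / 2))
  rw [div_lt_iff₀ (by norm_num)] at hn
  have hn0 : (0 : ℝ) ≤ n := Nat.cast_nonneg n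
  nlinarith

/-- Subexponential growth for one finite generating set gives it for all finite sets. -/
theorem subexp_of_gen (S : Finset Γ) (hS : Subgroup.closure (S : Set Γ) = ⊤)
    (h : ∀ ε : ℝ, 0 < ε → ∃ A : ℝ, 0 < A ∧ ∀ n : ℕ,
      ((wordBall Γ S n).ncard : ℝ) ≤ A * Real.exp (ε * n)) : SubexpGrowth Γ := by
  intro T ε hε
  obtain ⟨C, hC, hsub⟩ := ball_compare T S hS
  have hC0 : (0 : ℝ) < C := by exact_mod_cast hC
  obtain ⟨A, hA0, hA⟩ := h (ε / C) (by positivity)
  refine ⟨A, hA0, fun n => ?_⟩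
  have h1 : ((wordBall Γ T n).ncard : ℝ) ≤ ((wordBall Γ S (C * n)).ncard : ℝ) := by
    exact_mod_cast Set.ncard_le_ncard (hsub n) (ball_finite _ _)
  refine h1.trans ((hA (C * n)).trans (le_of_eq ?_))
  congr 2
  push_cast
  field_simp

theorem subexp_Gp : SubexpGrowth Gp := subexp_of_gen S0 S0_closure ball_subexp

/-- Products of finitely generated groups of subexponential growth. -/
theorem subexp_prod {G H : Type} [Group G] [Group H] (hG : SubexpGrowth G) (hH : SubexpGrowth H) :
    SubexpGrowth (G × H) := by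
  classical
  intro S ε hε
  obtain ⟨A, hA0, hA⟩ := hG (S.image Prod.fst) (ε / 2) (by positivity)
  obtain ⟨B, hB0, hB⟩ := hH (S.image Prod.snd) (ε / 2) (by positivity)
  refine ⟨A * B, by positivity, fun n => ?_⟩
  have hsub : wordBall (G × H) S n ⊆
      (wordBall G (S.image Prod.fst) n) ×ˢ (wordBall H (S.image Prod.snd) n) := by
    rintro g ⟨l, hl, hx, rfl⟩
    constructor
    · refine ⟨l.map Prod.fst, by rwa [List.length_map], ?_, (map_list_prod (MonoidHom.fst G H) l).symm⟩
      intro y hy
      obtain ⟨x, hx', rfl⟩ := List.mem_map.1 hy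
      rcases hx x hx' with h1 | h1
      · exact Or.inl (Finset.mem_image_of_mem _ h1)
      · exact Or.inr (Finset.mem_image_of_mem Prod.fst h1)
    · refine ⟨l.map Prod.snd, by rwa [List.length_map], ?_, (map_list_prod (MonoidHom.snd G H) l).symm⟩
      intro y hy
      obtain ⟨x, hx', rfl⟩ := List.mem_map.1 hy
      rcases hx x hx' with h1 | h1
      · exact Or.inl (Finset.mem_image_of_mem _ h1)
      · exact Or.inr (Finset.mem_image_of_mem Prod.snd h1)
  have h1 := Set.ncard_le_ncard hsub ((ball_finite _ _).prod (ball_finite _ _))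
  rw [Set.ncard_prod] at h1
  have h2 : ((wordBall (G × H) S n).ncard : ℝ) ≤
      ((wordBall G (S.image Prod.fst) n).ncard : ℝ) *
        ((wordBall H (S.image Prod.snd) n).ncard : ℝ) := by exact_mod_cast h1
  refine h2.trans ((mul_le_mul (hA n) (hB n) (Nat.cast_nonneg _) (by positivity)).trans
    (le_of_eq ?_))
  have h3 : Real.exp (ε * n) = Real.exp (ε / 2 * n) * Real.exp (ε / 2 * n) := by
    rw [← Real.exp_add]; ring_nf
  rw [h3]
  ring

end

/-- **Theorem.**  (1) If a group `Γ` with a finite generating set `S` contains a copy of `Gp`, then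
for a constant `C` there are at least `2 ^ π(M)` orbits of automorphisms meeting the ball of radius
`C M ^ 10`, for all `M ≥ 1`; in particular its automorphic growth is not polynomially bounded.
(2) Every finitely generated group of subexponential growth which contains a copy of `Gp` has
intermediate automorphic growth.
(3) Every group `H` of subexponential growth is a direct factor of a group of subexponential growth
with intermediate automorphic growth, namely of `Gp × H` (which is finitely generated if `H` is).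
(4) In particular there is a finitely generated group with intermediate automorphic growth. -/
theorem result :
    (∀ (Γ : Type) [Group Γ] (ι : Gp →* Γ), Function.Injective ι → ∀ S : Finset Γ,
      Subgroup.closure (S : Set Γ) = ⊤ →
      (∃ C : ℕ, 1 ≤ C ∧ ∀ M : ℕ, 1 ≤ M →
        2 ^ Nat.primeCounting M ≤ autGrowth Γ S (C * M ^ 10)) ∧
      ∀ d : ℕ, ¬ Dom (autGrowth Γ S) (fun n => n ^ d)) ∧
    (∀ (Γ : Type) [Group Γ] (ι : Gp →* Γ), Function.Injective ι → SubexpGrowth Γ →
      Intermediate Γ) ∧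
    (∀ (H : Type) [Group H], SubexpGrowth H → SubexpGrowth (Gp × H) ∧ Intermediate (Gp × H) ∧
      (Group.FG H → Group.FG (Gp × H))) ∧
    (∃ (G : Type) (_ : Group G), (∃ S : Finset G, Subgroup.closure (S : Set G) = ⊤) ∧
      ∀ S : Finset G, Subgroup.closure (S : Set G) = ⊤ →
        (∀ d : ℕ, ¬ Dom (autGrowth G S) (fun n => n ^ d)) ∧
        ¬ Dom (fun n => 2 ^ n) (autGrowth G S)) := by
  have h2 : ∀ (Γ : Type) [Group Γ] (ι : Gp →* Γ), Function.Injective ι → SubexpGrowth Γ →
      Intermediate Γ := fun Γ _ ι hι hg S hS =>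
    ⟨fun d => not_poly' ι hι S hS d, not_exp' hg S⟩
  refine ⟨fun Γ _ ι hι S hS => ⟨lower ι hι S hS, fun d => not_poly' ι hι S hS d⟩, h2, ?_,
    IntermediateAutGrowth.result⟩
  intro H _ hH
  have h3 := subexp_prod subexp_Gp hH
  refine ⟨h3, h2 _ (MonoidHom.inl Gp H) (fun x y h => congrArg Prod.fst h) h3, fun hfg => ?_⟩
  have h4 : Group.FG Gp := by
    rw [Group.fg_iff]
    exact ⟨S0, S0_closure, S0.finite_toSet⟩
  infer_instance

end Pool.Agent.Results.MP_b4aa87_al.AllOvergroups
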