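import Mathlib
import Pool.Agent.Results.MP_b4aa87_al.IntermediateAutGrowth

set_option autoImplicit false

open Filter Topology
open Pool.Agent.Results.MP_e563b5_al.IntermediateRatio hiding S0 not_poly
open Pool.Agent.H425R3.AG
open Pool.Agent.Results.MP_b4aa87_al.IntermediateAutGrowth

namespace Pool.Agent.Results.MP_b4aa87_al.StretchedExponential

/-- lower bound for the number of primes -/
theorem prime_lower : ∃ N : ℕ, ∀ M : ℕ, N ≤ M → 8 ≤ M →
    (M : ℝ) / 4 ≤ (Nat.primeCounting M : ℝ) * Real.log M := by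
  have h1 : Tendsto (fun x : ℝ => Real.log x ^ 2 / x) atTop (𝓝 0) := by
    have := (Real.isLittleO_pow_log_id_atTop (n := 2)).tendsto_div_nhds_zero
    simpa using this
  have h2 : Tendsto (fun M : ℕ => Real.log (M : ℝ) ^ 2 / M) atTop (𝓝 0) :=
    h1.comp tendsto_natCast_atTop_atTop
  have h4 := h2.eventually (gt_mem_nhds (show (0 : ℝ) < 1 / 16 by norm_num))
  obtain ⟨N, hN⟩ := eventually_atTop.mp h4
  refine ⟨N, fun M hNM hM3 => ?_⟩
  have hM2 := hN M hNM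
  have hM8 : (8 : ℝ) ≤ M := by exact_mod_cast hM3
  have hMpos : (0 : ℝ) < M := by linarith
  have hlog1 : 1 ≤ Real.log M := by
    rw [Real.le_log_iff_exp_le hMpos]
    have := Real.exp_one_lt_d9
    linarith
  have hlogM : 0 < Real.log M := by linarith
  have hb := Chebyshev.pi_ge M
  have hl2 : (0.6931471803 : ℝ) < Real.log 2 := Real.log_two_gt_d9
  have hlM1 : Real.log ((M : ℝ) + 1) ≤ 2 * Real.log M := by
    rw [← Real.log_rpow hMpos]
    apply Real.log_le_log (by positivity)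
    norm_num
    nlinarith
  have hsq : Real.log M ≤ Real.log M ^ 2 := by nlinarith
  rw [div_lt_iff₀ hMpos] at hM2
  rw [div_le_iff₀ hlogM] at hb
  nlinarith

/-- `π(M) log 2` beats `c M^(10/11)` -/
theorem prime_beats (c : ℝ) (hc : 0 < c) : ∀ᶠ M : ℕ in atTop,
    c * (M : ℝ) ^ (10 / 11 : ℝ) ≤ (Nat.primeCounting M : ℝ) * Real.log 2 := by
  obtain ⟨N, hN⟩ := prime_lower
  have h1 := (isLittleO_log_rpow_atTop (show (0 : ℝ) < 1 / 11 by norm_num)).bound
    (show (0 : ℝ) < 1 / (8 * c) by positivity)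
  have h2 := tendsto_natCast_atTop_atTop (R := ℝ) |>.eventually h1
  filter_upwards [h2, eventually_ge_atTop N, eventually_ge_atTop 8] with M hM hNM hM8
  have hM8' : (8 : ℝ) ≤ M := by exact_mod_cast hM8
  have hMpos : (0 : ℝ) < M := by linarith
  have hlog1 : 1 ≤ Real.log M := by
    rw [Real.le_log_iff_exp_le hMpos]
    have := Real.exp_one_lt_d9
    linarith
  have hlogM : 0 < Real.log M := by linarith
  have hb := hN M hNM hM8
  have hl2 : (0.6931471803 : ℝ) < Real.log 2 := Real.log_two_gt_d9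
  have hp : 0 < (M : ℝ) ^ (1 / 11 : ℝ) := Real.rpow_pos_of_pos hMpos _
  have hp' : 0 < (M : ℝ) ^ (10 / 11 : ℝ) := Real.rpow_pos_of_pos hMpos _
  rw [Real.norm_of_nonneg hlogM.le, Real.norm_of_nonneg hp.le] at hM
  have hM' : 8 * c * Real.log M ≤ (M : ℝ) ^ (1 / 11 : ℝ) := by
    have := mul_le_mul_of_nonneg_left hM (show 0 ≤ 8 * c by positivity)
    have h3 : 8 * c * (1 / (8 * c) * (M : ℝ) ^ (1 / 11 : ℝ)) = (M : ℝ) ^ (1 / 11 : ℝ) := by
      field_simp
    linarith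
  have hMM : (M : ℝ) ^ (10 / 11 : ℝ) * (M : ℝ) ^ (1 / 11 : ℝ) = M := by
    rw [← Real.rpow_add hMpos]
    norm_num
  have h5 : (c * (M : ℝ) ^ (10 / 11 : ℝ)) * Real.log M ≤ (M : ℝ) / 8 := by
    have := mul_le_mul_of_nonneg_left hM' hp'.le
    rw [hMM] at this
    nlinarith
  have h6 : (M : ℝ) / 8 ≤ ((Nat.primeCounting M : ℝ) * Real.log 2) * Real.log M := by
    have h0 : (0 : ℝ) ≤ (Nat.primeCounting M : ℝ) * Real.log M := by positivity
    nlinarith
  exact le_of_mul_le_mul_right (h5.trans h6) hlogM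

/-- the lower bound -/
theorem orders_lower (S : Finset Gp) (hS : Subgroup.closure (S : Set Gp) = ⊤) :
    ∀ᶠ n : ℕ in atTop, Real.exp ((n : ℝ) ^ (1 / 11 : ℝ)) ≤
      ((orderOf '' wordBall Gp S n).ncard : ℝ) := by
  obtain ⟨C, hC, hsub⟩ := ball_compare S0 S hS
  have hC0 : (0 : ℝ) < C := by exact_mod_cast hC
  set K : ℝ := C * 12288 with hK
  have hK0 : 0 < K := by positivity
  have hc0 : 0 < (K * 1024) ^ (1 / 11 : ℝ) := by positivity
  have hT : Tendsto (fun n : ℕ => ⌊((n : ℝ) / K) ^ (1 / 10 : ℝ)⌋₊) atTop atTop := by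
    refine tendsto_nat_floor_atTop.comp ?_
    refine (tendsto_rpow_atTop (by norm_num)).comp ?_
    exact tendsto_natCast_atTop_atTop.atTop_div_const hK0
  have h1 := hT.eventually (prime_beats _ hc0)
  have h2 := hT.eventually (eventually_ge_atTop 1)
  filter_upwards [h1, h2] with n hn hn1
  set M : ℕ := ⌊((n : ℝ) / K) ^ (1 / 10 : ℝ)⌋₊ with hM
  have hM1 : (1 : ℝ) ≤ M := by exact_mod_cast hn1
  have hy0 : 0 ≤ ((n : ℝ) / K) ^ (1 / 10 : ℝ) := by positivity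
  have hpow : (((n : ℝ) / K) ^ (1 / 10 : ℝ)) ^ 10 = (n : ℝ) / K := by
    rw [← Real.rpow_natCast, ← Real.rpow_mul (by positivity)]
    norm_num
  have h3 : (M : ℝ) ≤ ((n : ℝ) / K) ^ (1 / 10 : ℝ) := Nat.floor_le hy0
  have h4 : ((n : ℝ) / K) ^ (1 / 10 : ℝ) < M + 1 := Nat.lt_floor_add_one _
  have h5 : (M : ℝ) ^ 10 ≤ (n : ℝ) / K := by
    rw [← hpow]; exact pow_le_pow_left₀ (by positivity) h3 10
  have h6 : (n : ℝ) / K ≤ ((M : ℝ) + 1) ^ 10 := by
    rw [← hpow]; exact pow_le_pow_left₀ hy0 h4.le 10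
  have h7 : C * (12288 * M ^ 10) ≤ n := by
    rw [le_div_iff₀ hK0] at h5
    have : ((C * (12288 * M ^ 10) : ℕ) : ℝ) ≤ (n : ℝ) := by
      push_cast
      rw [hK] at h5
      nlinarith
    exact_mod_cast this
  have h8 : (2 : ℝ) ^ Nat.primeCounting M ≤ ((orderOf '' wordBall Gp S n).ncard : ℝ) := by
    have h9 : 2 ^ Nat.primeCounting M ≤ (orderOf '' wordBall Gp S n).ncard := by
      refine (many_orders M hn1).trans ?_
      apply Set.ncard_le_ncard
      · exact Set.image_mono ((hsub _).trans (ball_mono h7))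
      · exact (ball_finite _ _).image _
    exact_mod_cast h9
  refine le_trans ?_ h8
  have h9 : (2 : ℝ) ^ Nat.primeCounting M = Real.exp (Nat.primeCounting M * Real.log 2) := by
    rw [Real.exp_nat_mul, Real.exp_log (by norm_num)]
  rw [h9]
  apply Real.exp_le_exp.mpr
  refine le_trans ?_ hn
  have h10 : (n : ℝ) ≤ (K * 1024) * (M : ℝ) ^ 10 := by
    rw [div_le_iff₀ hK0] at h6
    have h11 : ((M : ℝ) + 1) ^ 10 ≤ (2 * M) ^ 10 := pow_le_pow_left₀ (by positivity) (by linarith) 10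
    have h12 : (2 * (M : ℝ)) ^ 10 = 1024 * (M : ℝ) ^ 10 := by ring
    rw [h12] at h11
    calc (n : ℝ) ≤ ((M : ℝ) + 1) ^ 10 * K := h6
      _ ≤ (1024 * (M : ℝ) ^ 10) * K := mul_le_mul_of_nonneg_right h11 hK0.le
      _ = _ := by ring
  calc (n : ℝ) ^ (1 / 11 : ℝ) ≤ ((K * 1024) * (M : ℝ) ^ 10) ^ (1 / 11 : ℝ) :=
        Real.rpow_le_rpow (by positivity) h10 (by norm_num)
    _ = (K * 1024) ^ (1 / 11 : ℝ) * ((M : ℝ) ^ 10) ^ (1 / 11 : ℝ) :=
        Real.mul_rpow (by positivity) (by positivity)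
    _ = (K * 1024) ^ (1 / 11 : ℝ) * (M : ℝ) ^ (10 / 11 : ℝ) := by
        congr 1
        rw [← Real.rpow_natCast, ← Real.rpow_mul (by positivity)]
        norm_num

/-- the numerical inequality behind the contraction -/
theorem num_ineq : (2 : ℝ) * (0.45 : ℝ) ^ (9 / 10 : ℝ) ≤ 0.98 := by
  have h1 : (0.45 : ℝ) ^ (9 / 10 : ℝ) ≤ 0.49 := by
    have h2 : (0.45 : ℝ) ^ (9 / 10 : ℝ) = ((0.45 : ℝ) ^ 9) ^ (1 / 10 : ℝ) := by
      rw [← Real.rpow_natCast, ← Real.rpow_mul (by norm_num)]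
      norm_num
    have h3 : (0.49 : ℝ) = ((0.49 : ℝ) ^ 10) ^ (1 / 10 : ℝ) := by
      rw [← Real.rpow_natCast, ← Real.rpow_mul (by norm_num)]
      norm_num
    rw [h2, h3]
    exact Real.rpow_le_rpow (by norm_num) (by norm_num) (by norm_num)
  linarith

/-- eventually the polynomial factor is negligible -/
theorem poly_small : ∃ r0 : ℕ, 54 ≤ r0 ∧ ∀ r : ℕ, r0 ≤ r →
    16 * ((r : ℝ) + 4) ^ 2 ≤ Real.exp (0.02 * ((r : ℝ) + 1) ^ (9 / 10 : ℝ)) := by
  have h1 := (isLittleO_log_rpow_atTop (show (0 : ℝ) < 9 / 10 by norm_num)).bound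
    (show (0 : ℝ) < 0.02 / 8 by norm_num)
  have hT : Tendsto (fun r : ℕ => (r : ℝ) + 1) atTop atTop :=
    tendsto_natCast_atTop_atTop.atTop_add tendsto_const_nhds
  have h2 := hT.eventually h1
  obtain ⟨N, hN⟩ := eventually_atTop.mp h2
  refine ⟨max N 54, le_max_right _ _, fun r hr => ?_⟩
  have h3 := hN r ((le_max_left _ _).trans hr)
  have h54 : 54 ≤ r := (le_max_right _ _).trans hr
  have h54' : (54 : ℝ) ≤ r := by exact_mod_cast h54
  have hx : (0 : ℝ) < (r : ℝ) + 1 := by linarith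
  have hlog : 0 ≤ Real.log ((r : ℝ) + 1) := Real.log_nonneg (by linarith)
  have hp : 0 ≤ ((r : ℝ) + 1) ^ (9 / 10 : ℝ) := by positivity
  rw [Real.norm_of_nonneg hlog, Real.norm_of_nonneg hp] at h3
  have h4 : 8 * Real.log ((r : ℝ) + 1) ≤ 0.02 * ((r : ℝ) + 1) ^ (9 / 10 : ℝ) := by linarith
  have h5 : 16 * ((r : ℝ) + 4) ^ 2 ≤ ((r : ℝ) + 1) ^ 8 := by
    have ha : (r : ℝ) + 4 ≤ 2 * ((r : ℝ) + 1) := by linarith
    have hb : ((r : ℝ) + 4) ^ 2 ≤ (2 * ((r : ℝ) + 1)) ^ 2 := pow_le_pow_left₀ (by linarith) ha 2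
    have hc : (64 : ℝ) ≤ ((r : ℝ) + 1) ^ 6 := by
      calc (64 : ℝ) = 2 ^ 6 := by norm_num
        _ ≤ _ := pow_le_pow_left₀ (by norm_num) (by linarith) 6
    have hd : 0 ≤ ((r : ℝ) + 1) ^ 2 := by positivity
    calc 16 * ((r : ℝ) + 4) ^ 2 ≤ 16 * (2 * ((r : ℝ) + 1)) ^ 2 := by linarith
      _ = 64 * ((r : ℝ) + 1) ^ 2 := by ring
      _ ≤ ((r : ℝ) + 1) ^ 6 * ((r : ℝ) + 1) ^ 2 := mul_le_mul_of_nonneg_right hc hd
      _ = _ := by ring
  calc 16 * ((r : ℝ) + 4) ^ 2 ≤ ((r : ℝ) + 1) ^ 8 := h5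
    _ = Real.exp (8 * Real.log ((r : ℝ) + 1)) := by
      have := Real.exp_nat_mul (Real.log ((r : ℝ) + 1)) 8
      rw [Real.exp_log hx] at this
      rw [← this]
      norm_num
    _ ≤ _ := Real.exp_le_exp.mpr h4

/-- stretched exponential bound for the reachable pairs -/
theorem RF_stretched : ∃ C : ℝ, 0 ≤ C ∧ ∀ r : ℕ,
    ((RF r).card : ℝ) ≤ Real.exp (C * ((r : ℝ) + 1) ^ (9 / 10 : ℝ)) := by
  obtain ⟨r0, h54, hr0⟩ := poly_small
  set C : ℝ := max 1 (Real.log (2 * 7 ^ r0)) with hC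
  have hC1 : 1 ≤ C := le_max_left _ _
  have hC2 : Real.log (2 * 7 ^ r0) ≤ C := le_max_right _ _
  refine ⟨C, by linarith, fun r => ?_⟩
  induction r using Nat.strong_induction_on with
  | _ r ih =>
    have hr1 : (1 : ℝ) ≤ (r : ℝ) + 1 := by
      have : (0 : ℝ) ≤ r := Nat.cast_nonneg r
      linarith
    rcases Nat.lt_or_ge r r0 with hr | hr
    · have h1 : ((RF r).card : ℝ) ≤ 2 * 7 ^ r := by exact_mod_cast RF_card r
      have h2 : (2 : ℝ) * 7 ^ r ≤ 2 * 7 ^ r0 :=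
        mul_le_mul_of_nonneg_left (pow_le_pow_right₀ (by norm_num) hr.le) (by norm_num)
      have h3 : (2 : ℝ) * 7 ^ r0 = Real.exp (Real.log (2 * 7 ^ r0)) :=
        (Real.exp_log (by positivity)).symm
      have h4 : (1 : ℝ) ≤ ((r : ℝ) + 1) ^ (9 / 10 : ℝ) := Real.one_le_rpow hr1 (by norm_num)
      refine (h1.trans h2).trans ?_
      rw [h3]
      apply Real.exp_le_exp.mpr
      nlinarith
    · have hrr := hr0 r hr
      have h54' : 54 ≤ r := h54.trans hr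
      have h54r : (54 : ℝ) ≤ r := by exact_mod_cast h54'
      set X : ℝ := ((r : ℝ) + 1) ^ (9 / 10 : ℝ) with hX
      have hX0 : 0 ≤ X := by positivity
      have hrec : ((RF r).card : ℝ) ≤
          8 + ∑ q ∈ prs r, 8 * (((RF q.1).card : ℝ) * ((RF q.2).card : ℝ)) := by
        exact_mod_cast RF_rec r
      have hterm : ∀ q ∈ prs r, 8 * (((RF q.1).card : ℝ) * ((RF q.2).card : ℝ)) ≤
          8 * Real.exp (0.98 * C * X) := by
        intro q hq
        simp only [prs, Finset.mem_filter] at hq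
        have hq2 := hq.2
        have h1 := ih q.1 (by omega)
        have h2 := ih q.2 (by omega)
        have h3 : ((RF q.1).card : ℝ) * ((RF q.2).card : ℝ) ≤
            Real.exp (C * ((q.1 : ℝ) + 1) ^ (9 / 10 : ℝ)) *
            Real.exp (C * ((q.2 : ℝ) + 1) ^ (9 / 10 : ℝ)) :=
          mul_le_mul h1 h2 (Nat.cast_nonneg _) ((Nat.cast_nonneg _).trans h1)
        rw [← Real.exp_add] at h3
        refine mul_le_mul_of_nonneg_left (h3.trans (Real.exp_le_exp.mpr ?_)) (by norm_num)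
        have hconc := (Real.concaveOn_rpow (show (0 : ℝ) ≤ 9 / 10 by norm_num)
          (show (9 / 10 : ℝ) ≤ 1 by norm_num)).2
          (show ((q.1 : ℝ) + 1) ∈ Set.Ici (0 : ℝ) from by
            have : (0 : ℝ) ≤ q.1 := Nat.cast_nonneg _
            simp only [Set.mem_Ici]; linarith)
          (show ((q.2 : ℝ) + 1) ∈ Set.Ici (0 : ℝ) from by
            have : (0 : ℝ) ≤ q.2 := Nat.cast_nonneg _
            simp only [Set.mem_Ici]; linarith)
          (show (0 : ℝ) ≤ 1 / 2 by norm_num) (show (0 : ℝ) ≤ 1 / 2 by norm_num)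
          (by norm_num)
        simp only [smul_eq_mul] at hconc
        have hq' : 6 * ((q.1 : ℝ) + q.2) ≤ 5 * (r + 3) := by exact_mod_cast hq2
        have hmean : 1 / 2 * ((q.1 : ℝ) + 1) + 1 / 2 * ((q.2 : ℝ) + 1) ≤ 0.45 * ((r : ℝ) + 1) := by
          linarith
        have hmono : (1 / 2 * ((q.1 : ℝ) + 1) + 1 / 2 * ((q.2 : ℝ) + 1)) ^ (9 / 10 : ℝ) ≤
            (0.45 * ((r : ℝ) + 1)) ^ (9 / 10 : ℝ) :=
          Real.rpow_le_rpow (by positivity) hmean (by norm_num)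
        rw [Real.mul_rpow (by norm_num) (by linarith)] at hmono
        have h5 : ((q.1 : ℝ) + 1) ^ (9 / 10 : ℝ) + ((q.2 : ℝ) + 1) ^ (9 / 10 : ℝ) ≤
            2 * (0.45 : ℝ) ^ (9 / 10 : ℝ) * X := by
          have := hconc.trans hmono
          rw [hX]
          linarith
        have h6 : 2 * (0.45 : ℝ) ^ (9 / 10 : ℝ) * X ≤ 0.98 * X :=
          mul_le_mul_of_nonneg_right num_ineq hX0
        calc C * ((q.1 : ℝ) + 1) ^ (9 / 10 : ℝ) + C * ((q.2 : ℝ) + 1) ^ (9 / 10 : ℝ)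
            = C * (((q.1 : ℝ) + 1) ^ (9 / 10 : ℝ) + ((q.2 : ℝ) + 1) ^ (9 / 10 : ℝ)) := by ring
          _ ≤ C * (0.98 * X) := mul_le_mul_of_nonneg_left (h5.trans h6) (by linarith)
          _ = _ := by ring
      have hcard : ((prs r).card : ℝ) ≤ ((r : ℝ) + 4) ^ 2 := by
        have : (prs r).card ≤ (r + 4) * (r + 4) := by
          refine (Finset.card_filter_le _ _).trans ?_
          rw [Finset.card_product]; simp
        have h' : ((prs r).card : ℝ) ≤ ((r : ℝ) + 4) * ((r : ℝ) + 4) := by exact_mod_cast this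
        rw [sq]; exact h'
      have hsum : ∑ q ∈ prs r, 8 * (((RF q.1).card : ℝ) * ((RF q.2).card : ℝ)) ≤
          ((r : ℝ) + 4) ^ 2 * (8 * Real.exp (0.98 * C * X)) := by
        refine (Finset.sum_le_card_nsmul _ _ _ hterm).trans ?_
        rw [nsmul_eq_mul]
        exact mul_le_mul_of_nonneg_right hcard (by positivity)
      have he1 : 1 ≤ Real.exp (0.98 * C * X) := Real.one_le_exp (by positivity)
      have hs1 : (1 : ℝ) ≤ ((r : ℝ) + 4) ^ 2 := by nlinarith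
      have h8 : (8 : ℝ) ≤ ((r : ℝ) + 4) ^ 2 * (8 * Real.exp (0.98 * C * X)) := by
        nlinarith
      have h9 : 16 * ((r : ℝ) + 4) ^ 2 ≤ Real.exp (0.02 * C * X) := by
        refine hrr.trans (Real.exp_le_exp.mpr ?_)
        nlinarith
      calc ((RF r).card : ℝ) ≤ 8 + ((r : ℝ) + 4) ^ 2 * (8 * Real.exp (0.98 * C * X)) := by
            linarith
        _ ≤ 16 * ((r : ℝ) + 4) ^ 2 * Real.exp (0.98 * C * X) := by linarith
        _ ≤ Real.exp (0.02 * C * X) * Real.exp (0.98 * C * X) :=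
            mul_le_mul_of_nonneg_right h9 (by positivity)
        _ = Real.exp (C * X) := by
            rw [← Real.exp_add]
            congr 1
            ring

/-- stretched exponential bound for the factorial factor -/
theorem fact_stretched (n : ℕ) (hn : 1 ≤ n) : ∃ j : ℕ, 6 * n ≤ 2 ^ (8 * j) ∧
    (((5 * 2 ^ (7 * j)).factorial : ℕ) : ℝ) ≤ Real.exp (215 * (1536 * (n : ℝ)) ^ (9 / 10 : ℝ)) := by
  have hn0 : 6 * n ≠ 0 := by omega
  set j := Nat.log 2 (6 * n) / 8 + 1 with hj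
  have h1 : 6 * n < 2 ^ (8 * j) := Nat.lt_pow_of_log_lt (by norm_num) (by omega)
  have h2 : 2 ^ (8 * (j - 1)) ≤ 6 * n := Nat.pow_le_of_le_log hn0 (by omega)
  refine ⟨j, h1.le, ?_⟩
  have h3 : (2 : ℝ) ^ (8 * j) ≤ 1536 * n := by
    have h4 : 2 ^ (8 * j) = 256 * 2 ^ (8 * (j - 1)) := by
      rw [show 8 * j = 8 + 8 * (j - 1) by omega, pow_add]
      norm_num
    have h5 : 2 ^ (8 * j) ≤ 1536 * n := by
      rw [h4]; omega
    exact_mod_cast h5
  have h4 : (((5 * 2 ^ (7 * j)).factorial : ℕ) : ℝ) ≤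
      Real.exp ((5 * (2 : ℝ) ^ (7 * j)) * ((7 * j + 3) * Real.log 2)) := by
    have h5 : (5 * 2 ^ (7 * j)).factorial ≤ (5 * 2 ^ (7 * j)) ^ (5 * 2 ^ (7 * j)) :=
      Nat.factorial_le_pow _
    have h6 : (5 * 2 ^ (7 * j)) ^ (5 * 2 ^ (7 * j)) ≤ (2 ^ (7 * j + 3)) ^ (5 * 2 ^ (7 * j)) := by
      apply Nat.pow_le_pow_left
      rw [pow_add]
      omega
    have h7 : (((5 * 2 ^ (7 * j)).factorial : ℕ) : ℝ) ≤
        ((2 : ℝ) ^ (7 * j + 3)) ^ (5 * 2 ^ (7 * j)) := by exact_mod_cast h5.trans h6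
    refine h7.trans (le_of_eq ?_)
    rw [← pow_mul]
    have h8 : (2 : ℝ) ^ ((7 * j + 3) * (5 * 2 ^ (7 * j))) =
        Real.exp (((7 * j + 3) * (5 * 2 ^ (7 * j)) : ℕ) * Real.log 2) := by
      rw [Real.exp_nat_mul, Real.exp_log (by norm_num)]
    rw [h8]
    congr 1
    push_cast
    ring
  refine h4.trans (Real.exp_le_exp.mpr ?_)
  set Y : ℝ := 1536 * (n : ℝ) with hY
  have hn1 : (1 : ℝ) ≤ n := by exact_mod_cast hn
  have hY1 : 1 ≤ Y := by rw [hY]; linarith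
  have hY0 : 0 < Y := by linarith
  have h5 : (2 : ℝ) ^ (7 * j) ≤ Y ^ (7 / 8 : ℝ) := by
    have h6 : (2 : ℝ) ^ (7 * j) = ((2 : ℝ) ^ (8 * j)) ^ (7 / 8 : ℝ) := by
      rw [← Real.rpow_natCast 2 (8 * j), ← Real.rpow_mul (by norm_num), ← Real.rpow_natCast]
      congr 1
      push_cast
      ring
    rw [h6]
    exact Real.rpow_le_rpow (by positivity) h3 (by norm_num)
  have hlog2 : 0 < Real.log 2 := Real.log_pos (by norm_num)
  have hlog2' : Real.log 2 < 1 := by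
    have := Real.log_two_lt_d9
    linarith
  have h6 : 8 * (j : ℝ) * Real.log 2 ≤ Real.log Y := by
    have := Real.log_le_log (by positivity) h3
    rw [Real.log_pow] at this
    push_cast at this
    linarith
  have h7 : Real.log Y ≤ Y ^ (1 / 40 : ℝ) / (1 / 40) := Real.log_le_rpow_div hY0.le (by norm_num)
  have h8 : (1 : ℝ) ≤ Y ^ (1 / 40 : ℝ) := Real.one_le_rpow hY1 (by norm_num)
  have hj0 : (0 : ℝ) ≤ j := Nat.cast_nonneg j
  have h9 : (7 * (j : ℝ) + 3) * Real.log 2 ≤ 43 * Y ^ (1 / 40 : ℝ) := by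
    have h10 : 7 * (j : ℝ) * Real.log 2 ≤ Real.log Y := by
      have : 0 ≤ (j : ℝ) * Real.log 2 := by positivity
      linarith
    nlinarith
  have h10 : Y ^ (7 / 8 : ℝ) * Y ^ (1 / 40 : ℝ) = Y ^ (9 / 10 : ℝ) := by
    rw [← Real.rpow_add hY0]
    norm_num
  have h11 : 0 ≤ (7 * (j : ℝ) + 3) * Real.log 2 := by positivity
  calc (5 * (2 : ℝ) ^ (7 * j)) * ((7 * j + 3) * Real.log 2)
      ≤ (5 * Y ^ (7 / 8 : ℝ)) * (43 * Y ^ (1 / 40 : ℝ)) :=
        mul_le_mul (by linarith) h9 h11 (by positivity)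
    _ = 215 * (Y ^ (7 / 8 : ℝ) * Y ^ (1 / 40 : ℝ)) := by ring
    _ = _ := by rw [h10]

/-- stretched exponential bound for the permutations given by short words -/
theorem VB_stretched : ∃ D : ℝ, 0 ≤ D ∧ ∀ n : ℕ, 1 ≤ n →
    ((VB n).ncard : ℝ) ≤ Real.exp (D * (n : ℝ) ^ (9 / 10 : ℝ)) := by
  obtain ⟨C, hC0, hC⟩ := RF_stretched
  refine ⟨(C + 215) * (1536 : ℝ) ^ (9 / 10 : ℝ), by positivity, fun n hn => ?_⟩
  obtain ⟨j, hj1, hj2⟩ := fact_stretched n hn
  have hn1 : (1 : ℝ) ≤ n := by exact_mod_cast hn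
  have h1 : ((VB n).ncard : ℝ) ≤ ((RF (6 * n)).card : ℝ) *
      (((5 * 2 ^ (7 * j)).factorial : ℕ) : ℝ) := by exact_mod_cast (VB_bound n j hj1).2
  have h2 := hC (6 * n)
  have h3 : (((6 * n : ℕ) : ℝ) + 1) ^ (9 / 10 : ℝ) ≤ (1536 * (n : ℝ)) ^ (9 / 10 : ℝ) := by
    apply Real.rpow_le_rpow (by positivity) _ (by norm_num)
    push_cast
    linarith
  calc ((VB n).ncard : ℝ) ≤ _ := h1
    _ ≤ Real.exp (C * (((6 * n : ℕ) : ℝ) + 1) ^ (9 / 10 : ℝ)) *
          Real.exp (215 * (1536 * (n : ℝ)) ^ (9 / 10 : ℝ)) :=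
        mul_le_mul h2 hj2 (Nat.cast_nonneg _) (Real.exp_pos _).le
    _ = Real.exp (C * (((6 * n : ℕ) : ℝ) + 1) ^ (9 / 10 : ℝ) +
          215 * (1536 * (n : ℝ)) ^ (9 / 10 : ℝ)) := (Real.exp_add _ _).symm
    _ ≤ _ := by
        apply Real.exp_le_exp.mpr
        have h4 := mul_le_mul_of_nonneg_left h3 hC0
        have h5 : (1536 * (n : ℝ)) ^ (9 / 10 : ℝ) =
            (1536 : ℝ) ^ (9 / 10 : ℝ) * (n : ℝ) ^ (9 / 10 : ℝ) :=
          Real.mul_rpow (by norm_num) (by positivity)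
        calc C * (((6 * n : ℕ) : ℝ) + 1) ^ (9 / 10 : ℝ) + 215 * (1536 * (n : ℝ)) ^ (9 / 10 : ℝ)
            ≤ (C + 215) * (1536 * (n : ℝ)) ^ (9 / 10 : ℝ) := by linarith
          _ = _ := by rw [h5]; ring

/-- the upper bound -/
theorem ball_upper (S : Finset Gp) : ∀ᶠ n : ℕ in atTop,
    ((wordBall Gp S n).ncard : ℝ) ≤ Real.exp ((n : ℝ) ^ (10 / 11 : ℝ)) := by
  obtain ⟨C, hC, hsub⟩ := ball_compare S S0 S0_closure
  obtain ⟨D, hD0, hD⟩ := VB_stretched
  have hT : Tendsto (fun n : ℕ => (n : ℝ) ^ (1 / 110 : ℝ)) atTop atTop :=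
    (tendsto_rpow_atTop (by norm_num)).comp tendsto_natCast_atTop_atTop
  have h1 := hT.eventually (eventually_ge_atTop (D * (C : ℝ) ^ (9 / 10 : ℝ)))
  filter_upwards [h1, eventually_ge_atTop 1] with n hn hn1
  have hn0 : (0 : ℝ) < n := by exact_mod_cast hn1
  have hCn : 1 ≤ C * n := Nat.mul_pos hC hn1
  have h2 : (wordBall Gp S n).ncard ≤ (VB (C * n)).ncard := by
    refine (Set.ncard_le_ncard (hsub n) (ball_finite _ _)).trans ?_
    obtain ⟨j, hj⟩ : ∃ j, 6 * (C * n) ≤ 2 ^ (8 * j) :=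
      ⟨6 * (C * n), (Nat.lt_two_pow_self).le.trans (Nat.pow_le_pow_right (by norm_num) (by omega))⟩
    have hfin := (VB_bound (C * n) j hj).1
    rw [← Set.ncard_image_of_injective (wordBall Gp S0 (C * n))
      (f := fun g : Gp => (g : Equiv.Perm ℕ)) Subtype.val_injective]
    apply Set.ncard_le_ncard _ hfin
    rintro _ ⟨g, hg, rfl⟩
    exact V_of_ball hg
  have h3 : ((wordBall Gp S n).ncard : ℝ) ≤ ((VB (C * n)).ncard : ℝ) := by exact_mod_cast h2
  refine (h3.trans (hD _ hCn)).trans (Real.exp_le_exp.mpr ?_)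
  have h4 : (((C * n : ℕ) : ℝ)) ^ (9 / 10 : ℝ) = (C : ℝ) ^ (9 / 10 : ℝ) * (n : ℝ) ^ (9 / 10 : ℝ) := by
    push_cast
    exact Real.mul_rpow (by positivity) (by positivity)
  have h5 : (n : ℝ) ^ (1 / 110 : ℝ) * (n : ℝ) ^ (9 / 10 : ℝ) = (n : ℝ) ^ (10 / 11 : ℝ) := by
    rw [← Real.rpow_add hn0]
    norm_num
  rw [h4, ← mul_assoc, ← h5]
  exact mul_le_mul_of_nonneg_right hn (by positivity)

/-- There is a finitely generated group such that, for every finite generating set and all large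
radii `n`, the number of orders of elements of the ball, the automorphic growth function and the
size of the ball lie between `exp (n^(1/11))` and `exp (n^(10/11))`. In particular its automorphic
growth is intermediate. -/
theorem result : ∃ (G : Type) (_ : Group G),
    (∃ S : Finset G, Subgroup.closure (S : Set G) = ⊤) ∧
    ∀ S : Finset G, Subgroup.closure (S : Set G) = ⊤ →
      (∃ n₀ : ℕ, ∀ n : ℕ, n₀ ≤ n →
        Real.exp ((n : ℝ) ^ (1 / 11 : ℝ)) ≤ ((orderOf '' wordBall G S n).ncard : ℝ) ∧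
        (orderOf '' wordBall G S n).ncard ≤ autGrowth G S n ∧
        autGrowth G S n ≤ (wordBall G S n).ncard ∧
        ((wordBall G S n).ncard : ℝ) ≤ Real.exp ((n : ℝ) ^ (10 / 11 : ℝ))) ∧
      (∀ d : ℕ, ¬ Dom (autGrowth G S) (fun n => n ^ d)) ∧
      ¬ Dom (fun n => 2 ^ n) (autGrowth G S) := by
  refine ⟨Gp, inferInstance, ⟨S0, S0_closure⟩, fun S hS => ⟨?_, not_poly S hS, not_exp S⟩⟩
  obtain ⟨n₀, hn₀⟩ := eventually_atTop.mp ((orders_lower S hS).and (ball_upper S))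
  exact ⟨n₀, fun n hn => ⟨(hn₀ n hn).1, orders_le_growth S n, growth_le_ball S n, (hn₀ n hn).2⟩⟩

end Pool.Agent.Results.MP_b4aa87_al.StretchedExponential
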